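import Pool.Agent.N126.IS.Stm

/-! Project IS (helper126), subtask 2654: algebraic independence under invertible linear substitutions (helper157). -/

set_option autoImplicit false

open MvPolynomial

namespace Pool.Agent.N157.IS

open Pool.Agent.N126.IS

/-- the substitution given by a matrix -/
noncomputable def sub {k0 I : Type} [Field k0] {N : ℕ} (A : Matrix (Fin N) (Fin N) k0) :
    MvPolynomial (Fin N × I) k0 →ₐ[k0] MvPolynomial (Fin N × I) k0 :=
  aeval (fun p : Fin N × I => ∑ l, C (A p.1 l) * X (l, p.2))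

lemma sub_sub {k0 I : Type} [Field k0] {N : ℕ} (A B : Matrix (Fin N) (Fin N) k0) (h : A * B = 1)
    (P : MvPolynomial (Fin N × I) k0) : sub B (sub A P) = P := by
  have e : ((sub B : MvPolynomial (Fin N × I) k0 →ₐ[k0] MvPolynomial (Fin N × I) k0).comp (sub A)) =
      AlgHom.id k0 _ := by
    apply MvPolynomial.algHom_ext
    rintro ⟨j, i⟩
    simp only [AlgHom.comp_apply, AlgHom.id_apply, sub, aeval_X, map_sum, map_mul, algHom_C,
      algebraMap_eq]
    simp only [Finset.mul_sum, ← mul_assoc, ← map_mul]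
    rw [Finset.sum_comm]
    have h1 : ∀ t : Fin N, ∑ l, C (σ := Fin N × I) (A j l * B l t) * X (t, i) =
        C ((1 : Matrix (Fin N) (Fin N) k0) j t) * X (t, i) := by
      intro t
      rw [← Finset.sum_mul, ← map_sum, ← h, Matrix.mul_apply]
    rw [Finset.sum_congr rfl (fun t _ => h1 t), Finset.sum_eq_single j]
    · rw [Matrix.one_apply_eq, map_one, one_mul]
    · intro t _ ht
      rw [Matrix.one_apply_ne (Ne.symm ht), map_zero, zero_mul]
    · intro h0
      exact absurd (Finset.mem_univ _) h0
  exact congrArg (fun f => f P) e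

/-- LIN -/
theorem main_LIN : S_LIN := by
  intro k0 k I _ _ _ N x hx A hA
  have h1 : A * A⁻¹ = 1 := Matrix.mul_nonsing_inv A hA
  have hinj : Function.Injective (sub (I := I) A) := fun P Q h => by
    rw [← sub_sub A A⁻¹ h1 P, ← sub_sub A A⁻¹ h1 Q, h]
  have e : (aeval (fun p : Fin N × I => ∑ l, algebraMap k0 k (A p.1 l) * x l p.2) :
      MvPolynomial (Fin N × I) k0 →ₐ[k0] k) =
      (aeval (fun p : Fin N × I => x p.1 p.2) : MvPolynomial (Fin N × I) k0 →ₐ[k0] k).comp (sub A) := by
    apply MvPolynomial.algHom_ext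
    rintro ⟨j, i⟩
    simp only [AlgHom.comp_apply, sub, aeval_X, map_sum, map_mul, algHom_C]
  unfold AlgebraicIndependent at hx ⊢
  rw [e]
  intro P Q h
  exact hinj (hx h)


end Pool.Agent.N157.IS
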